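import Pool.Agent.P.MP_e74401_co.Final

open Pool.Agent.P.MP_e74401_co

namespace Pool.Agent.Results.MP_e74401_co.Counterexample

/-- In five variables, with `τ = 1/20` (Jack parameter `α = 1/τ = 20`), `lam = (4,2,1,0,0)`
majorizes `mu = (3,3,1,0,0)`, the Jack polynomials `P = P_lam` and `Q = P_mu` are the unique
polynomials with the defining properties, and the normalized difference is not in the Muirhead
semiring. -/
theorem result (τ : ℝ) (hτ : τ = 1 / 20) (lam mu : Fin 5 → ℕ) (hlam : lam = ![4, 2, 1, 0, 0])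
    (hmu : mu = ![3, 3, 1, 0, 0]) :
    Antitone lam ∧ Antitone mu ∧ Majorizes lam mu ∧
      ∃ P Q : MvPolynomial (Fin 5) ℝ,
        (∀ f, IsJack (1 / τ) lam f ↔ f = P) ∧ (∀ f, IsJack (1 / τ) mu f ↔ f = Q) ∧
        normalized P - normalized Q ∉ muirheadSemiring 5 := by
  subst hlam hmu
  have h : 1 / τ = 20 := by
    rw [hτ]
    norm_num
  rw [h]
  exact ⟨by decide, by decide, by decide, jackA, jackB, isJackA, isJackB, not_mem_semiring⟩

end Pool.Agent.Results.MP_e74401_co.Counterexample
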